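import Mathlib
import Pool.Agent.N52.HA.Final
import Pool.Agent.Results.MP_544bd1_al.TwoGeneratorsMultiplesOfFive
import Pool.Agent.Results.MP_544bd1_al.ThreeGeneratorsFive

/-!
# Exponents `n` for which one soluble free Burnside group of moderate derived length decides

Outline. Put `v_0 = z` and `v_{i+1} = [v_i, g_i v_i g_i⁻¹]`.

1. If a group `H ≠ 1` has no nontrivial abelian normal subgroup, then for each `w ≠ 1` there is `g`
with `[w, g w g⁻¹] ≠ 1`, since otherwise the normal closure of `w` is abelian; so there are `g_0, g_1,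
…` such that all `v_i` are nontrivial. If `G` is periodic and `R` is a maximal locally finite normal
subgroup of `G`, this applies to `G / R`, since periodic abelian groups are locally finite. So `G` is
locally finite if for all `z, g_0, g_1, …` some `v_i` is trivial. Now `v_i` involves `i + 1` elements,
and lies in the `i`-th derived subgroup and in `γ_{2 ^ (i + 1) - 1}` of the subgroup they generate.
If `G` has exponent `n` and `d ∈ 𝓛`, it suffices to start with `d`-th powers `z`, since `G / R` does
not have exponent `d`.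

2. Let `Q` be a finite group of exponent dividing `m` with `s` generators `a_j`. In the wreath
product `G ≀ Q` let `u_j = (λ(·, j), a_j)`, where `λ = 1` on the edges of a spanning tree of the
Cayley graph of `Q`; there are `N = (s - 1) |Q| + 1` other edges. The evaluation at `1` maps the
intersection of `⟨u_1, …, u_s⟩` with the base group onto a group containing the `N` labels of these
edges. With `G = B_{N,n}` this shows that `B_{N,n}` is an image of a subgroup of `B_{s,mn}`.

3. Let `n = p ^ a m` with `p ∤ m`. If `B_{s,n}` is soluble of derived length at most `(s - 1) |Q|`, then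
so is `B_{N,p ^ a}`, `N = (s - 1) |Q| + 1`, and `p ^ a ∈ 𝓛` by 1. So the earlier results
`ThreeGenerators(Five)` (`s = 3`) and `TwoGenerators(MultiplesOfFive)` (`s = 2`), which assume that
the prime powers dividing `n` are in `𝓛`, can be applied without this assumption.
-/

set_option autoImplicit false

namespace Pool.Agent.Results.MP_544bd1_al.SmallDerivedLength

open Pool.Agent.N52.HA

universe u

/-- the exponents treated in `TwoGenerators`: `n` is not divisible by `2 ^ m * (2 ^ m - 1) ^ 2` for
any `m ≥ 2`, and there are at most two odd primes whose square divides `n` -/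
def Admissible (n : ℕ) : Prop :=
  (∀ m : ℕ, 2 ≤ m → ¬ 2 ^ m * (2 ^ m - 1) ^ 2 ∣ n) ∧
    ∃ p q : ℕ, ∀ r : ℕ, r.Prime → r ≠ 2 → r ^ 2 ∣ n → r = p ∨ r = q

/-- the sufficient conditions: (a) `B_{r,n}` is soluble of derived length at most `r - 1` or nilpotent
of class at most `2 ^ r - 2`, for some `r ≥ 1`; (b) `v_r(x_0 ^ d; x_1, …, x_r) = 1` in `B_{r+1,n}`, for
some `r` and some `d ∈ 𝓛`; (c) `B_{s,mn}` is soluble of derived length at most `(s - 1) |Q|`, where `Q`
is a finite group of exponent dividing `m` with `s ≥ 1` generators; (d) `s = 3`, or `s = 2`, `n ≠ 5` and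
`n` is admissible, and `B_{s,n}` is soluble of derived length `l`, where for each prime power
`p ^ a > 5` exactly dividing `n` there is a finite `s`-generator group `Q` of exponent dividing
`n / p ^ a` with `l ≤ (s - 1) |Q|` -/
def Crit (n : ℕ) : Prop :=
  (∃ r, 1 ≤ r ∧ Short (B r n) r) ∨
  (∃ r d, InL.{u} d ∧ v (gen (r + 1) n 0 ^ d) (fun i => gen (r + 1) n (i + 1)) r = 1) ∨
  (∃ s m c, 1 ≤ s ∧ HasGroup s m c ∧ derivedSeries (B s (m * n)) ((s - 1) * c) = ⊥) ∨
  ∃ s l, (s = 3 ∨ s = 2 ∧ n ≠ 5 ∧ Admissible n) ∧ LengthOK s n l ∧ derivedSeries (B s n) l = ⊥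

/-- (1) A periodic group `G` is locally finite if for all `z, g_0, g_1, …` in `G` some `v_i` is
trivial, and in particular if for some `r ≥ 1` all `r`-generator subgroups of `G` are soluble of
derived length at most `r - 1` or nilpotent of class at most `2 ^ r - 2`. (2) A number `n ≥ 1` with
one of the properties (a), (b), (c), (d) of `Crit` is in `𝓛`. (In (d) one can take `|Q| = m ^ s`.) -/
theorem result :
    (∀ (G : Type u) [Group G], (∀ x : G, ∃ n : ℕ, 1 ≤ n ∧ x ^ n = 1) →
      ((∀ (z : G) (g : ℕ → G), ∃ i, v z g i = 1) ∨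
        ∃ r, 1 ≤ r ∧ ∀ a : Fin r → G, Short (Subgroup.closure (Set.range a)) r) →
      ∀ S : Set G, S.Finite → Finite (Subgroup.closure S)) ∧
    (∀ n : ℕ, 1 ≤ n → Crit.{u} n → InL.{u} n) ∧
    ∀ s n l : ℕ, 1 ≤ n → (∀ p a m : ℕ, p.Prime → n = p ^ a * m → ¬ p ∣ m → 5 < p ^ a →
      l ≤ (s - 1) * m ^ s) → LengthOK s n l := by
  refine ⟨?_, ?_, fun s n l hn h => lengthOK_abelian hn h⟩
  · rintro G _ hG (h | ⟨r, hr, h⟩)
    · exact lf_of_v hG h
    · exact lf_of_short hG hr h
  · rintro n hn (⟨r, hr, h⟩ | ⟨r, d, hd, h⟩ | ⟨s, m, c, hs, hc, h⟩ | ⟨s, l, hs, hl, h⟩)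
    · exact inL_of_short hn hr h
    · exact inL_of_v hn hd h
    · refine inL_of_wreath hn hc ?_ h
      obtain ⟨t, rfl⟩ : ∃ t, s = t + 1 := ⟨s - 1, by omega⟩
      rw [Nat.add_sub_cancel, Nat.add_mul, one_mul]
    · rcases hs with rfl | ⟨rfl, hn5, hA⟩
      · refine ((ThreeGeneratorsFive.result.{u}.2.2.2 n hn ?_ (Or.inr (isSolvable_of_derived h))).2
          (finite_of_derived hn h))
        exact fun p k hp hk h5 => prime_powers (by norm_num) hn hl h p k hp hk h5
      · refine ((TwoGeneratorsMultiplesOfFive.result.{u}.1 n hn hn5 hA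
          (Or.inr (isSolvable_of_derived h))).2 ⟨?_, finite_of_derived hn h⟩)
        exact fun p k hp hk h5 => prime_powers (by norm_num) hn hl h p k hp hk h5

end Pool.Agent.Results.MP_544bd1_al.SmallDerivedLength
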